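import Pool.Agent.H.MP_a2f955_an.C

open MeasureTheory Pool.Agent.H.MP_a2f955_an
open scoped ComplexConjugate

namespace Pool.Agent.Results.MP_a2f955_an.Main

theorem result (A : ENNReal) (hA : 0 < A) (f fp fm : ℝ → ℂ)
    (_hR : InR A f) (_hH : ∀ l ∈ Iv A, f (-l) = conj (f l))
    (hm : AEMeasurable f (volume.restrict (Iv A)))
    (hp : InP A fp) (hn : InP A fm) (hd : ∀ l ∈ Iv A, f l = fp l - fm l)
    (hmin : (nrm A f : ℂ) = fp 0 + fm 0) :
    AEMeasurable fp (volume.restrict (Iv A)) ∧ AEMeasurable fm (volume.restrict (Iv A)) :=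
  main hA hm hp hn hd hmin

end Pool.Agent.Results.MP_a2f955_an.Main
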